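import Pool.Agent.H55.QR.Targets
import Pool.Agent.H73.OX.LAS

set_option autoImplicit false

namespace Pool.Agent.H86.QR

open Matrix Finset
open H43.PS
open Pool.Agent.H55.QR
open Pool.Agent.H1.LP (Loc Sys supp ip)
open Pool.Agent.H96.KX (PDz)

theorem dpr_low {B : ℕ} {Z : Type} (h : ℕ) (f : (Fin B → Z) → ℝ) (hf : Low h f) :
    Pool.Agent.H73.OX.Low (h + 1) f := by
  classical
  obtain ⟨F, hF, hs⟩ := hf
  have h1 : f = ∑ T ∈ univ.filter (fun T : Finset (Fin B) => T.card ≤ h), F T := by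
    funext z
    rw [Finset.sum_apply]
    exact hs z
  unfold Pool.Agent.H73.OX.Low
  rw [h1]
  refine Submodule.sum_mem _ fun T hT => Submodule.subset_span ⟨T, ?_, hF T⟩
  have := (mem_filter.1 hT).2
  omega

theorem pf_DPR (hPA : Pool.Agent.H96.KX.S_PDA) (hLV : Pool.Agent.H73.OX.S_LAV) : S_DPR := by
  classical
  intro p B d h hp S hd
  obtain ⟨h1, h2⟩ := hPA p B d S
  have hp0 : (p : ℝ) ≠ 0 := by exact_mod_cast hp.out.ne_zero
  refine ⟨?_, ?_, ?_, ?_⟩
  · intro z
    rw [ZMod.card]
    exact h1 z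
  · intro f hf
    exact Pool.Agent.H73.OX.las p B d S (h + 1) (by simpa using hd) f (dpr_low h f hf)
  · unfold av
    rw [h2, Fintype.card_fun, ZMod.card, Fintype.card_fin]
    push_cast
    exact inv_mul_cancel₀ (pow_ne_zero B hp0)
  · intro R A be hA
    unfold av
    have h3 : ∀ z : Fin B → ZMod p,
        PDz S z * ((univ.filter (fun i => ip (A i) z ≠ be i)).card : ℝ) =
        ∑ i, (if ip (A i) z ≠ S.ga (A i) then PDz S z else 0) := by
      intro z
      rw [Finset.card_filter]
      push_cast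
      rw [Finset.mul_sum]
      refine Finset.sum_congr rfl fun i _ => ?_
      rw [(hA i).2]
      split_ifs <;> simp
    rw [Finset.sum_congr rfl fun z _ => h3 z, Finset.sum_comm]
    have h4 : ∀ i, ∑ z : Fin B → ZMod p, (if ip (A i) z ≠ S.ga (A i) then PDz S z else 0) = 0 :=
      fun i => hLV p B d S (A i) (hA i).1
    rw [Finset.sum_congr rfl fun i _ => h4 i]
    simp

end Pool.Agent.H86.QR
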